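import Pool.Agent.Helper28.Ram.Goals

/-!
# The numeric factor, transcripts and output bits are linear-space functions
-/

namespace Pool.Agent.Helper90.Ram

open Pool.Agent.Helper65.LinSpace Pool.Agent.Helper28.Ram Finset

variable {α β : Type} [Ctx α] [Ctx β]

theorem lsm_comp {m : α → Mach} {C : α → ℕ} (h : LSM m C) {f : β → α} (hf : LS f) :
    LSM (fun z => m (f z)) (fun z => C (f z)) where
  σ := LS.comp (g := fun z => (m z).σ) h.σ hf
  b := LS.comp (g := fun z => (m z).b) h.b hf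
  G := LS.comp (g := fun z => (m z).G) h.G hf
  A := LS.comp (g := fun z : α × ℕ => (m z.1).A z.2) (f := fun z : β × ℕ => (f z.1, z.2)) h.A
    (by fun_prop)
  N := LS.comp (g := fun z : α × ℕ × ℕ => (m z.1).N z.2.1 z.2.2)
    (f := fun z : β × ℕ × ℕ => (f z.1, z.2)) h.N (by fun_prop)
  W := LS.comp (g := fun z : α × ℕ × ℕ => (m z.1).W z.2.1 z.2.2)
    (f := fun z : β × ℕ × ℕ => (f z.1, z.2)) h.W (by fun_prop)
  q0 := LS.comp (g := fun z => (m z).q0) h.q0 hf
  M0 := LS.comp (g := fun z : α × ℕ => (m z.1).M0 z.2) (f := fun z : β × ℕ => (f z.1, z.2)) h.M0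
    (by fun_prop)
  bd := LS.comp (g := C) h.bd hf
  ok z := h.ok (f z)
  hC z := h.hC (f z)

section

variable {m : α → Mach} {C : α → ℕ}

theorem ls_pow (h : LSM m C) : LS (fun z => 2 ^ (m z).σ) :=
  LS.pow_of_le (f := fun _ => 2) (LS.const 2) h.σ h.bd h.hC

theorem ls_A (h : LSM m C) {q : α → ℕ} (hq : LS q) : LS (fun z => (m z).A (q z)) :=
  LS.comp (g := fun z : α × ℕ => (m z.1).A z.2) (f := fun z => (z, q z)) h.A
    (LS.prodMk LS.id hq)

theorem ls_N (h : LSM m C) {q v : α → ℕ} (hq : LS q) (hv : LS v) :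
    LS (fun z => (m z).N (q z) (v z)) :=
  LS.comp (g := fun z : α × ℕ × ℕ => (m z.1).N z.2.1 z.2.2) (f := fun z => (z, q z, v z)) h.N
    (LS.prodMk LS.id (LS.prodMk hq hv))

theorem ls_W (h : LSM m C) {q v : α → ℕ} (hq : LS q) (hv : LS v) :
    LS (fun z => (m z).W (q z) (v z)) :=
  LS.comp (g := fun z : α × ℕ × ℕ => (m z.1).W z.2.1 z.2.2) (f := fun z => (z, q z, v z)) h.W
    (LS.prodMk LS.id (LS.prodMk hq hv))

theorem ls_nA (h : LSM m C) {i a q : α → ℕ} (hi : LS i) (ha : LS a) (hq : LS q) :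
    LS (fun z => (m z).nA (i z) (a z) (q z)) := by
  unfold Mach.nA
  exact LS.ifz (LS.eq01 hi h.G) (ls_A h hq) (LS.mod ha (ls_pow h))

theorem ls_nN (h : LSM m C) {i q v : α → ℕ} (hi : LS i) (hq : LS q) (hv : LS v) :
    LS (fun z => (m z).nN (i z) (q z) (v z)) := by
  unfold Mach.nN
  exact LS.ifz (LS.eq01 hi h.G) (ls_N h hq hv) hq

theorem ls_nW (h : LSM m C) {i q v : α → ℕ} (hi : LS i) (hq : LS q) (hv : LS v) :
    LS (fun z => (m z).nW (i z) (q z) (v z)) := by
  unfold Mach.nW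
  exact LS.ifz (LS.eq01 hi h.G) (ls_W h hq hv) hv

theorem ls_tv (h : LSM m C) {y r : α → ℕ} (hy : LS y) (hr : LS r) :
    LS (fun z => (m z).tv (y z) (r z)) := by
  unfold Mach.tv
  exact LS.dig (ls_pow h) hy (LS.succ hr)

theorem tq_lt (m : Mach) (hm : m.Ok) (i y r : ℕ) : m.tq i y r < 2 ^ m.σ := by
  unfold Mach.tq
  induction r with
  | zero => exact dig_lt (by positivity) _ _
  | succ r ih =>
    rw [nrec_succ]
    generalize nrec (dig (2 ^ m.σ) y 0) (fun r q => m.nN i q (m.tv y r)) r = x at ih ⊢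
    unfold Mach.nN ifz
    split_ifs
    · exact hm.hN _ _
    · exact ih

theorem ls_tq (h : LSM m C) {i y r : α → ℕ} (hi : LS i) (hy : LS y) (hr : LS r) :
    LS (fun z => (m z).tq (i z) (y z) (r z)) := by
  unfold Mach.tq
  refine LS.nrec (G := fun z => dig (2 ^ (m z).σ) (y z) 0) (N := r) (C := C)
    (K := fun z r q => (m z).nN (i z) q ((m z).tv (y z) r)) (LS.dig (ls_pow h) hy (LS.const 0)) hr
    h.bd ?_ ?_
  · have h' : LSM (fun z : α × ℕ × ℕ => m z.1) (fun z => C z.1) := lsm_comp h LS.fst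
    exact ls_nN h' (i := fun z : α × ℕ × ℕ => i z.1) (by fun_prop) (by fun_prop)
      (ls_tv h' (y := fun z : α × ℕ × ℕ => y z.1) (by fun_prop) (by fun_prop))
  · intro z j _
    exact (tq_lt (m z) (h.ok z) (i z) (y z) j).le.trans (h.hC z)

theorem ls_ta (h : LSM m C) {i a y r : α → ℕ} (hi : LS i) (ha : LS a) (hy : LS y) (hr : LS r) :
    LS (fun z => (m z).ta (i z) (a z) (y z) (r z)) := by
  unfold Mach.ta
  exact ls_nA h hi ha (ls_tq h hi hy hr)

theorem ls_tw (h : LSM m C) {i y r : α → ℕ} (hi : LS i) (hy : LS y) (hr : LS r) :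
    LS (fun z => (m z).tw (i z) (y z) (r z)) := by
  unfold Mach.tw
  exact ls_nW h hi (ls_tq h hi hy hr) (ls_tv h hy hr)

theorem ls_wd (h : LSM m C) : LS (fun z => (m z).wd) := by
  have h1 := h.σ
  have h2 := h.b
  unfold Mach.wd
  fun_prop

theorem ls_cell (h : LSM m C) {q o : α → ℕ} {f g : α → ℕ → ℕ} (hq : LS q)
    (hf : LS (fun z : α × ℕ => f z.1 z.2)) (hg : LS (fun z : α × ℕ => g z.1 z.2)) (ho : LS o) :
    LS (fun z => (m z).cell (q z) (f z) (g z) (o z)) := by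
  have h1 := h.σ
  have h2 := ls_wd h
  have hf' : LS (fun z => f z ((o z - (m z).σ) / (2 * (m z).σ))) :=
    LS.comp (g := fun z : α × ℕ => f z.1 z.2)
      (f := fun z => (z, (o z - (m z).σ) / (2 * (m z).σ))) hf (by fun_prop)
  have hg' : LS (fun z => g z ((o z - (m z).σ) / (2 * (m z).σ))) :=
    LS.comp (g := fun z : α × ℕ => g z.1 z.2)
      (f := fun z => (z, (o z - (m z).σ) / (2 * (m z).σ))) hg (by fun_prop)
  unfold Mach.cell
  fun_prop

theorem ls_outc (h : LSM m C) {i a y o : α → ℕ} (hi : LS i) (ha : LS a) (hy : LS y) (ho : LS o) :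
    LS (fun z => (m z).outc (i z) (a z) (y z) (o z)) := by
  have h' : LSM (fun z : α × ℕ => m z.1) (fun z => C z.1) := lsm_comp h LS.fst
  unfold Mach.outc
  exact ls_cell h (ls_tq h hi hy h.b)
    (ls_ta h' (i := fun z : α × ℕ => i z.1) (a := fun z => a z.1) (y := fun z => y z.1)
      (r := fun z => z.2) (by fun_prop) (by fun_prop) (by fun_prop) (by fun_prop))
    (ls_tw h' (i := fun z : α × ℕ => i z.1) (y := fun z => y z.1)
      (r := fun z => z.2) (by fun_prop) (by fun_prop) (by fun_prop)) ho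

theorem ls_topc (h : LSM m C) {q a v o : α → ℕ} (hq : LS q) (ha : LS a) (hv : LS v) (ho : LS o) :
    LS (fun z => (m z).topc (q z) (a z) (v z) (o z)) := by
  unfold Mach.topc
  exact ls_cell h hq (f := fun z _ => a z) (g := fun z _ => v z) (by fun_prop) (by fun_prop) ho

end

theorem ls_eqN {p σ q : α → ℕ} {X : α → ℕ → ℕ} (hp : LS p) (hp0 : ∀ z, 0 < p z) (hσ : LS σ)
    (hq : LS q) (hX : LS (fun z : α × ℕ => X z.1 z.2)) :
    LS (fun z => eqN (p z) (σ z) (q z) (X z)) := by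
  unfold eqN
  exact LS.prodMod (f := fun z o => ifz (dig 2 (q z) o) (p z + 1 - X z o) (X z o))
    (by fun_prop) hσ hp hp0

theorem hN_lt (m : Mach) {p : ℕ} (hp0 : 0 < p) (a v h : ℕ) (X : ℕ → ℕ) (n : ℕ) :
    m.hN p a v h X n ≤ h + p := by
  unfold Mach.hN
  cases n with
  | zero => exact Nat.le_add_right _ _
  | succ n =>
    rw [nrec_succ]
    exact (Nat.mod_lt _ hp0).le.trans (Nat.le_add_left _ _)

section

variable {m : α → Mach} {C : α → ℕ}

theorem ls_hN (hm : LSM m C) {p a v h n : α → ℕ} {X : α → ℕ → ℕ} (hp : LS p)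
    (hp0 : ∀ z, 0 < p z) (ha : LS a) (hv : LS v) (hh : LS h)
    (hX : LS (fun z : α × ℕ => X z.1 z.2)) (hn : LS n) :
    LS (fun z => (m z).hN (p z) (a z) (v z) (h z) (X z) (n z)) := by
  have h1 := hm.σ
  have h2 := hm.b
  have h3 := ls_wd hm
  unfold Mach.hN
  refine LS.nrec (G := h) (N := n) (C := fun z => h z + p z)
    (K := fun z e r => (r + eqN (p z) (m z).σ (a z)
        (fun o => X z (e / (m z).b * (m z).wd + ((m z).σ + 2 * (m z).σ * (e % (m z).b) + o)))
      * (eqN (p z) (m z).σ (v z) (fun o => X z (e / (m z).b * (m z).wd +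
          ((m z).σ + 2 * (m z).σ * (e % (m z).b) + (m z).σ + o))) +
        (p z - r))) % p z) hh hn (by fun_prop) ?_ ?_
  · have g := lsm_comp hm (f := fun q : α × ℕ × ℕ => q.1) (by fun_prop)
    have g' := lsm_comp hm (f := fun q : (α × ℕ × ℕ) × ℕ => q.1.1) (by fun_prop)
    have g1 := g.σ
    have g1' := g'.σ
    have g2 := g.b
    have g2' := g'.b
    have g3 := ls_wd g
    have g3' := ls_wd g'
    have e1 : LS (fun q : α × ℕ × ℕ => eqN (p q.1) (m q.1).σ (a q.1)
        (fun o => X q.1 (q.2.1 / (m q.1).b * (m q.1).wd +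
          ((m q.1).σ + 2 * (m q.1).σ * (q.2.1 % (m q.1).b) + o)))) := by
      refine ls_eqN (p := fun q : α × ℕ × ℕ => p q.1) (σ := fun q => (m q.1).σ)
        (q := fun q => a q.1) (X := fun q o => X q.1 (q.2.1 / (m q.1).b * (m q.1).wd +
          ((m q.1).σ + 2 * (m q.1).σ * (q.2.1 % (m q.1).b) + o))) (by fun_prop)
          (fun q => hp0 q.1) (by fun_prop) (by fun_prop) ?_
      exact LS.comp (g := fun z : α × ℕ => X z.1 z.2)
        (f := fun q : (α × ℕ × ℕ) × ℕ => (q.1.1, (q.1.2.1 / (m q.1.1).b * (m q.1.1).wd +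
          ((m q.1.1).σ + 2 * (m q.1.1).σ * (q.1.2.1 % (m q.1.1).b) + q.2)))) hX (by fun_prop)
    have e2 : LS (fun q : α × ℕ × ℕ => eqN (p q.1) (m q.1).σ (v q.1)
        (fun o => X q.1 (q.2.1 / (m q.1).b * (m q.1).wd +
          ((m q.1).σ + 2 * (m q.1).σ * (q.2.1 % (m q.1).b) + (m q.1).σ + o)))) := by
      refine ls_eqN (p := fun q : α × ℕ × ℕ => p q.1) (σ := fun q => (m q.1).σ)
        (q := fun q => v q.1) (X := fun q o => X q.1 (q.2.1 / (m q.1).b * (m q.1).wd +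
          ((m q.1).σ + 2 * (m q.1).σ * (q.2.1 % (m q.1).b) + (m q.1).σ + o))) (by fun_prop)
          (fun q => hp0 q.1) (by fun_prop) (by fun_prop) ?_
      exact LS.comp (g := fun z : α × ℕ => X z.1 z.2)
        (f := fun q : (α × ℕ × ℕ) × ℕ => (q.1.1, (q.1.2.1 / (m q.1.1).b * (m q.1.1).wd +
          ((m q.1.1).σ + 2 * (m q.1.1).σ * (q.1.2.1 % (m q.1.1).b) + (m q.1.1).σ + q.2)))) hX
        (by fun_prop)
    fun_prop
  · intro z j _
    exact hN_lt (m z) (hp0 z) (a z) (v z) (h z) (X z) j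

theorem ls_fN (hm : LSM m C) {p i a y r : α → ℕ} {D X : α → ℕ → ℕ} (hp : LS p)
    (hp0 : ∀ z, 0 < p z) (hi : LS i) (ha : LS a) (hy : LS y) (hr : LS r)
    (hD : LS (fun z : α × ℕ => D z.1 z.2)) (hX : LS (fun z : α × ℕ => X z.1 z.2)) :
    LS (fun z => (m z).fN (p z) (i z) (a z) (y z) (r z) (D z) (X z)) := by
  have h1 := hm.σ
  have h2 := hm.b
  have h3 := ls_wd hm
  have h' : LSM (fun z : α × ℕ => m z.1) (fun z => C z.1) := lsm_comp hm LS.fst
  have g1 := h'.σ
  have g2 := h'.b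
  have g3 := ls_wd h'
  unfold Mach.fN
  have a1 : LS (fun z => eqN (p z) (m z).σ (dig (2 ^ (m z).σ) (y z) 0)
      (fun o => ifz (i z) (D z o) (X z ((i z - 1) * (m z).wd + o)))) := by
    refine ls_eqN (p := p) (σ := fun z => (m z).σ) (q := fun z => dig (2 ^ (m z).σ) (y z) 0)
      (X := fun z o => ifz (i z) (D z o) (X z ((i z - 1) * (m z).wd + o))) hp hp0 h1
      (LS.dig (ls_pow hm) hy (LS.const 0)) ?_
    have : LS (fun z : α × ℕ => X z.1 ((i z.1 - 1) * (m z.1).wd + z.2)) :=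
      LS.comp (g := fun z : α × ℕ => X z.1 z.2)
        (f := fun z : α × ℕ => (z.1, (i z.1 - 1) * (m z.1).wd + z.2)) hX (by fun_prop)
    fun_prop
  have a2 : LS (fun z => eqN (p z) (m z).σ ((m z).tv (y z) (r z))
      (fun o => D z (2 * (m z).σ + o))) := by
    refine ls_eqN (p := p) (σ := fun z => (m z).σ) (q := fun z => (m z).tv (y z) (r z))
      (X := fun z o => D z (2 * (m z).σ + o)) hp hp0 h1 (ls_tv hm hy hr) ?_
    exact LS.comp (g := fun z : α × ℕ => D z.1 z.2)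
      (f := fun z : α × ℕ => (z.1, 2 * (m z.1).σ + z.2)) hD (by fun_prop)
  have a3 : LS (fun z => (m z).hN (p z) ((m z).ta (i z) (a z) (y z) (r z))
      ((m z).tv (y z) (r z)) (eqN (p z) (m z).σ ((m z).tv (y z) (r z))
        (fun o => D z (2 * (m z).σ + o)))
      (fun x => ifz (eq01 (x / (m z).wd) (i z)) (X z x)
        ((m z).outc (i z) (a z) (y z) (x % (m z).wd))) (i z * (m z).b + r z)) := by
    refine ls_hN hm (a := fun z => (m z).ta (i z) (a z) (y z) (r z))
      (v := fun z => (m z).tv (y z) (r z)) (h := fun z => eqN (p z) (m z).σ ((m z).tv (y z) (r z))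
        (fun o => D z (2 * (m z).σ + o)))
      (X := fun z x => ifz (eq01 (x / (m z).wd) (i z)) (X z x)
        ((m z).outc (i z) (a z) (y z) (x % (m z).wd))) (n := fun z => i z * (m z).b + r z)
      hp hp0 (ls_ta hm hi ha hy hr) (ls_tv hm hy hr) a2 ?_ (by fun_prop)
    have o1 : LS (fun z : α × ℕ => (m z.1).outc (i z.1) (a z.1) (y z.1) (z.2 % (m z.1).wd)) :=
      ls_outc h' (i := fun z : α × ℕ => i z.1) (a := fun z => a z.1) (y := fun z => y z.1)
        (o := fun z => z.2 % (m z.1).wd) (by fun_prop) (by fun_prop) (by fun_prop) (by fun_prop)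
    fun_prop
  exact LS.mod (LS.mul (LS.ifz hr a1 (LS.const 1)) a3) hp

end

theorem LSFN : LSFN_stmt := by
  intro α _ m C p i a y r D X hm hp hp0 hi ha hy hr hD hX
  exact ⟨ls_fN hm hp hp0 hi ha hy hr hD hX, ls_outc hm hi ha hy hr, ls_ta hm hi ha hy hr,
    ls_topc hm hi ha hy hr⟩

end Pool.Agent.Helper90.Ram
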